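import Pool.Agent.H93.CT.Stmts

/-!
Modules BRT and BRB of project CT: branches of the tree, branches of the subtree of a column.
-/

set_option linter.unusedVariables false
set_option synthInstance.maxSize 100000

namespace SW

section
variable {M : Type} [SetStr M] [ZF M]

/-- the maximum of two elements of an ordinal -/
theorem brb_max {a b c : M} (ha : Ord a) (hb : E b a) (hc : E c a) :
    ∃ d, E d a ∧ (E b d ∨ b = d) ∧ (E c d ∨ c = d) := by
  rcases (ha.mem hb).tri (ha.mem hc) with h | h | h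
  · exact ⟨c, hc, Or.inl h, Or.inr rfl⟩
  · exact ⟨c, hc, Or.inr h, Or.inr rfl⟩
  · exact ⟨b, hb, Or.inr rfl, Or.inl h⟩

end

theorem ct_brt (hfus : FUSStmt) (hcfx : CFXStmt) (hndf : NDFStmt) : BRTStmt := by
  intro M _ _ w Z I a p hbs hp hlim b v F hv hF hF2 hAv
  have cf := hcfx M w Z I hbs
  have nf := hndf M
  obtain ⟨haw, hao⟩ := cf.ht hp
  obtain ⟨z, F', h1, h2, h3, h4, h5, h6, h7, h8⟩ := hfus M w Z a
    (fun b v F : M => Lv p b v ∧ Fnt F ∧ Sub F om ∧ Av F v) hbs haw inferInstance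
    (fun b v F h => ⟨(cf.lvh hp h.1).1, (cf.lvh hp h.1).2.1, h.2⟩) (by
      rintro b v F c ⟨hv, hF, hF2, hAv⟩ hc
      obtain ⟨d, hd, hbd, hcd⟩ := brb_max hao (cf.lvh hp hv).1 hc
      have hsd : E (suc d) a := hlim d hd
      have hb' : E b (suc d) := by rw [mem_suc]; exact hbd
      have hc' : E c (suc d) := by rw [mem_suc]; exact hcd
      obtain ⟨t, g, hx, _⟩ := cf.lev hp hsd
      obtain ⟨v', hv', hs, ha'⟩ := hp.2.1.2.2.2 b v (suc d) _ F hv hb' hx hF hF2 hAv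
      obtain ⟨k, hk, hkF, hkv⟩ := (cf.lvh hp hv').2.1.2.2.2.2 F hF
      refine ⟨suc d, v', ins k F, hc', hb', ⟨hv', finF.ins hF, ?_, ?_⟩, hs, ?_, ?_⟩
      · intro y hy
        rw [mem_ins] at hy
        rcases hy with hy | rfl
        · exact hF2 y hy
        · exact hk
      · intro y x hy hxy
        rw [mem_ins] at hy
        rcases hy with hy | rfl
        · exact ha' y x hy hxy
        · exact hkv x hxy
      · intro y hy
        rw [mem_ins]
        exact Or.inl hy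
      · intro h
        apply hkF
        rw [h, mem_ins]
        exact Or.inr rfl) b v F ⟨hv, hF, hF2, hAv⟩
  refine ⟨z, h1, h2, fun y x hy hx => h7 y x (h3 y hy) hx, fun c hc => ?_⟩
  obtain ⟨b', v', F'', hcb, ⟨hv', _⟩, rfl⟩ := h8 c hc
  have h9 := hp.2.1.2.2.1 b' _ c hv' hcb
  rwa [nf.rr ((hao.mem (cf.lvh hp hv').1).sub_of_mem hcb)] at h9

theorem ct_brb (hfus : FUSStmt) (hcfx : CFXStmt) (hndf : NDFStmt) : BRBStmt := by
  intro M _ _ w Z I a p K hbs hI hp hae hK hunb b v F e hv he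
  have cf := hcfx M w Z I hbs
  have nf := hndf M
  obtain ⟨haw, hao⟩ := cf.ht hp
  have hkl := hp.2.2 K hK
  have hQ1 : ∀ b v F, InB p K b v F → E b a ∧ Nd b v ∧ Fnt F ∧ Sub F om ∧ Av F v := by
    intro b v F h
    obtain ⟨h1, h2⟩ := hkl.2.2.1 b v F h
    exact ⟨(cf.lvh hp h1).1, (cf.lvh hp h1).2.1, h2⟩
  have hba := (hQ1 b v F hv).1
  obtain ⟨d, hda, hbd, hact⟩ := hunb b hba
  obtain ⟨v1, F1, hv1, hs1, hf1, hne1, hnot⟩ := hkl.2.2.2.2.1 b d v F
    (img e (fun y => res y d)) hbd hv hact (finF.img _ inferInstance he)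
  obtain ⟨z, F', h1, h2, h3, h4, h5, h6, h7, h8⟩ := hfus M w Z a
    (fun b v F : M => InB p K b v F) hbs haw inferInstance hQ1 (by
      intro b v F c hv hc
      obtain ⟨d, hd, hbd, hcd⟩ := brb_max hao (hQ1 b v F hv).1 hc
      obtain ⟨d', hd', hdd, hact⟩ := hunb d hd
      have hod' := hao.mem hd'
      have hb' : E b d' := by
        rcases hbd with h | rfl
        · exact hod'.trans hdd h
        · exact hdd
      have hc' : E c d' := by
        rcases hcd with h | rfl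
        · exact hod'.trans hdd h
        · exact hdd
      obtain ⟨v', F', h1, h2, h3, h4, _⟩ := hkl.2.2.2.2.1 b d' v F emp hb' hv hact finF.emp
      exact ⟨d', v', F', hc', hb', h1, h2, h3, h4⟩) d v1 F1 hv1
  refine ⟨z, F', h1, hs1.trans h2, hf1.trans h3, ?_, h5, h6, h7, ?_, ?_, ?_⟩
  · rintro rfl
    exact hne1 (hf1.antisymm h3)
  · intro c hc
    obtain ⟨b', v', F'', hcb, hv', rfl⟩ := h8 c hc
    have hlv := (hkl.2.2.1 _ _ _ hv').1
    have h9 := hp.2.1.2.2.1 b' _ c hlv hcb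
    rwa [nf.rr ((hao.mem (cf.lvh hp hlv).1).sub_of_mem hcb)] at h9
  · intro c hc hac
    obtain ⟨b', v', F'', hcb, hv', rfl⟩ := h8 c hc
    have hlv := (hkl.2.2.1 _ _ _ hv').1
    obtain ⟨F3, h9⟩ := hkl.2.2.2.2.2.1 c b' _ F'' hcb hv' hac
    rw [nf.rr ((hao.mem (cf.lvh hp hlv).1).sub_of_mem hcb)] at h9
    exact ⟨F3, h9⟩
  · intro hze
    apply hnot
    rw [mem_img' inferInstance]
    exact ⟨z, hze, (nf.rsub h1 (hQ1 d v1 F1 hv1).2.1 h2).2⟩

end SW
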