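import Pool.Agent.H93.CT.Stmts

/-!
Module FUS of project CT: fusion.
-/

set_option linter.unusedVariables false
set_option synthInstance.maxSize 100000

namespace SW

section
variable {M : Type} [SetStr M] [ZF M]

/-- the state number `n` of the sequence `f` is `(n, (b, (v, F)))` -/
def fus_P (f n b v F : M) : Prop := app f n = opair n (opair b (opair v F))

instance {n : ℕ} {t s u x y : (Fin n → M) → M} [ht : DfT t] [hs : DfT s] [hu : DfT u]
    [hx : DfT x] [hy : DfT y] : Df (fun v => fus_P (t v) (s v) (u v) (x v) (y v)) := by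
  unfold fus_P; infer_instance

theorem fus_P_uniq {f n b v F b' v' F' : M} (h : fus_P f n b v F) (h' : fus_P f n b' v' F') :
    b = b' ∧ v = v' ∧ F = F' := by
  unfold fus_P at h h'
  rw [h, opair_inj, opair_inj, opair_inj] at h'
  exact h'.2

end

theorem ct_fus (hdc : DCXStmt) : FUSStmt := by
  intro M _ _ w Z a Q hbs ha hQ hQ1 hQ2 b0 v0 F0 hQ0
  have hw := hbs.w1
  have hao : Ord a := hw.1.mem ha
  obtain ⟨g, g1, g2⟩ := hw.2.2 a ha
  let X : M := sep (prod om (prod a (prod (pow (prod a om)) (pow om))))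
    (fun x : M => ∃ i b v F : M, x = opair i (opair b (opair v F)) ∧ Q b v F)
  have hX : ∀ i b v F : M, E (opair i (opair b (opair v F))) X ↔ E i om ∧ Q b v F := by
    intro i b v F
    show E _ (sep _ _) ↔ _
    rw [mem_sep' inferInstance]
    constructor
    · rintro ⟨h, i', b', v', F', h1, h2⟩
      rw [opair_inj, opair_inj, opair_inj] at h1
      obtain ⟨rfl, rfl, rfl, rfl⟩ := h1
      exact ⟨(mem_prod.1 h).1, h2⟩
    · rintro ⟨hi, h⟩
      obtain ⟨hb, hv, hF, hF2, _⟩ := hQ1 b v F h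
      refine ⟨mem_prod.2 ⟨hi, mem_prod.2 ⟨hb, mem_prod.2 ⟨?_, ?_⟩⟩⟩, i, b, v, F, rfl, h⟩
      · rw [mem_pow]
        intro t ht
        obtain ⟨x, n, hx, hn, rfl⟩ := hv.1 t ht
        exact mem_prod.2 ⟨hao.1 b hb x hx, hn⟩
      · rw [mem_pow]
        exact hF2
  have hXd : ∀ x, E x X → ∃ i b v F, x = opair i (opair b (opair v F)) ∧ E i om ∧ Q b v F := by
    intro x hx
    have h2 : E x (sep (prod om (prod a (prod (pow (prod a om)) (pow om))))
      (fun x : M => ∃ i b v F : M, x = opair i (opair b (opair v F)) ∧ Q b v F)) := hx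
    rw [mem_sep' inferInstance] at h2
    obtain ⟨h, i, b, v, F, rfl, hq⟩ := h2
    exact ⟨i, b, v, F, rfl, (mem_prod.1 h).1, hq⟩
  obtain ⟨f, f0, fs⟩ := hdc M X (opair emp (opair b0 (opair v0 F0)))
    (fun x y : M => ∃ i b v F b' v' F' : M, x = opair i (opair b (opair v F)) ∧
      y = opair (suc i) (opair b' (opair v' F')) ∧
      (∀ c : M, E c a → E (opair c i) g → E c b') ∧ E b b' ∧ Sub v v' ∧ Sub F F' ∧ F ≠ F')
    inferInstance ((hX _ _ _ _).2 ⟨emp_mem_om, hQ0⟩) (by
      intro x hx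
      obtain ⟨i, b, v, F, rfl, hi, hq⟩ := hXd x hx
      have hba := (hQ1 b v F hq).1
      by_cases hc : ∃ c, E c a ∧ E (opair c i) g
      · obtain ⟨c, hca, hcg⟩ := hc
        obtain ⟨b', v', F', h1, h2, h3, h4, h5, h6⟩ := hQ2 b v F c hq hca
        refine ⟨opair (suc i) (opair b' (opair v' F')), (hX _ _ _ _).2 ⟨suc_mem_om hi, h3⟩,
          i, b, v, F, b', v', F', rfl, rfl, ?_, h2, h4, h5, h6⟩
        intro c' hc' hcg'
        rw [g2 c' c i hc' hca hi hcg' hcg]
        exact h1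
      · obtain ⟨b', v', F', h1, h2, h3, h4, h5, h6⟩ := hQ2 b v F b hq hba
        refine ⟨opair (suc i) (opair b' (opair v' F')), (hX _ _ _ _).2 ⟨suc_mem_om hi, h3⟩,
          i, b, v, F, b', v', F', rfl, rfl, ?_, h2, h4, h5, h6⟩
        intro c' hc' hcg'
        exact absurd ⟨c', hc', hcg'⟩ hc)
  -- decoding
  have hdec : ∀ n, E n om → ∃ b v F, fus_P f n b v F := by
    refine om_ind (C := fun n : M => ∃ b v F : M, fus_P f n b v F) inferInstance
      ⟨b0, v0, F0, f0⟩ ?_
    rintro n hn ⟨b, v, F, h⟩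
    obtain ⟨_, i, b1, v1, F1, b', v', F', h1, h2, _⟩ := fs n hn
    have h3 : app f n = opair n (opair b (opair v F)) := h
    rw [h3, opair_inj] at h1
    refine ⟨b', v', F', ?_⟩
    show app f (suc n) = _
    rw [h2, ← h1.1]
  have hPQ : ∀ n b v F, E n om → fus_P f n b v F → Q b v F := by
    intro n b v F hn h
    have h1 := (fs n hn).1
    have h3 : app f n = opair n (opair b (opair v F)) := h
    rw [h3] at h1
    exact ((hX _ _ _ _).1 h1).2
  have hstep : ∀ n b v F b' v' F', E n om → fus_P f n b v F → fus_P f (suc n) b' v' F' →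
      (∀ c, E c a → E (opair c n) g → E c b') ∧ E b b' ∧ Sub v v' ∧ Sub F F' ∧ F ≠ F' := by
    intro n b v F b' v' F' hn h h'
    obtain ⟨_, i, b1, v1, F1, b2, v2, F2, h1, h2, h3⟩ := fs n hn
    have e1 : app f n = opair n (opair b (opair v F)) := h
    have e2 : app f (suc n) = opair (suc n) (opair b' (opair v' F')) := h'
    rw [e1, opair_inj, opair_inj, opair_inj] at h1
    rw [e2, opair_inj, opair_inj, opair_inj] at h2
    obtain ⟨rfl, rfl, rfl, rfl⟩ := h1
    obtain ⟨_, rfl, rfl, rfl⟩ := h2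
    exact h3
  -- monotonicity
  have hmono : ∀ n, E n om → ∀ m, E m om → (E m n ∨ m = n) → ∀ b v F b' v' F',
      fus_P f m b v F → fus_P f n b' v' F' → Sub v v' ∧ Sub F F' := by
    refine om_ind (C := fun n : M => ∀ m : M, E m om → (E m n ∨ m = n) →
      ∀ b v F b' v' F' : M, fus_P f m b v F → fus_P f n b' v' F' → Sub v v' ∧ Sub F F')
      inferInstance ?_ ?_
    · intro m hm h b v F b' v' F' h1 h2
      rcases h with h | rfl
      · exact absurd h (not_mem_emp _)
      · obtain ⟨rfl, rfl, rfl⟩ := fus_P_uniq h1 h2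
        exact ⟨Sub.refl _, Sub.refl _⟩
    · intro n hn ih m hm h b v F b' v' F' h1 h2
      rcases h with h | rfl
      · rw [mem_suc] at h
        obtain ⟨b1, v1, F1, h3⟩ := hdec n hn
        obtain ⟨h4, h5⟩ := ih m hm h b v F b1 v1 F1 h1 h3
        obtain ⟨_, _, h6, h7, _⟩ := hstep n b1 v1 F1 b' v' F' hn h3 h2
        exact ⟨h4.trans h6, h5.trans h7⟩
      · obtain ⟨rfl, rfl, rfl⟩ := fus_P_uniq h1 h2
        exact ⟨Sub.refl _, Sub.refl _⟩
  -- the union
  let z : M := sep (prod a om) (fun t : M => ∃ n b v F : M, E n om ∧ fus_P f n b v F ∧ E t v)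
  have hz : ∀ t, E t z ↔ ∃ n b v F, E n om ∧ fus_P f n b v F ∧ E t v := by
    intro t
    show E t (sep _ _) ↔ _
    rw [mem_sep' inferInstance]
    constructor
    · exact fun h => h.2
    · rintro ⟨n, b, v, F, hn, hp, ht⟩
      refine ⟨?_, n, b, v, F, hn, hp, ht⟩
      obtain ⟨hb, hv, _⟩ := hQ1 b v F (hPQ n b v F hn hp)
      obtain ⟨x, k, hx, hk, rfl⟩ := hv.1 t ht
      exact mem_prod.2 ⟨hao.1 b hb x hx, hk⟩
  have hsub : ∀ n b v F, E n om → fus_P f n b v F → Sub v z := by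
    intro n b v F hn hp t ht
    exact (hz t).2 ⟨n, b, v, F, hn, hp, ht⟩
  -- two members of z are in a common v
  have hcom : ∀ t t', E t z → E t' z → ∃ n b v F, E n om ∧ fus_P f n b v F ∧ E t v ∧ E t' v := by
    intro t t' ht ht'
    obtain ⟨n, b, v, F, hn, hp, h⟩ := (hz t).1 ht
    obtain ⟨n', b', v', F', hn', hp', h'⟩ := (hz t').1 ht'
    rcases (Ord_nat hn).tri (Ord_nat hn') with hc | hc | hc
    · exact ⟨n', b', v', F', hn', hp', (hmono n' hn' n hn (Or.inl hc) b v F b' v' F' hp hp').1 _ h,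
        h'⟩
    · subst hc
      obtain ⟨rfl, rfl, rfl⟩ := fus_P_uniq hp hp'
      exact ⟨n, b, v, F, hn, hp, h, h'⟩
    · exact ⟨n, b, v, F, hn, hp, h,
        (hmono n hn n' hn' (Or.inl hc) b' v' F' b v F hp' hp).1 _ h'⟩
  have hAv : ∀ n b v F, E n om → fus_P f n b v F → Av F z := by
    intro n b v F hn hp k x hk hxk
    obtain ⟨n', b', v', F', hn', hp', h'⟩ := (hz _).1 hxk
    obtain ⟨_, _, _, _, hv⟩ := hQ1 b v F (hPQ n b v F hn hp)
    obtain ⟨_, _, _, _, hv'⟩ := hQ1 b' v' F' (hPQ n' b' v' F' hn' hp')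
    rcases (Ord_nat hn).tri (Ord_nat hn') with hc | hc | hc
    · exact hv' k x ((hmono n' hn' n hn (Or.inl hc) b v F b' v' F' hp hp').2 _ hk) h'
    · subst hc
      obtain ⟨rfl, rfl, rfl⟩ := fus_P_uniq hp hp'
      exact hv k x hk h'
    · exact hv k x hk ((hmono n hn n' hn' (Or.inl hc) b' v' F' b v F hp' hp).1 _ h')
  -- every c in a is in some b
  have hcov : ∀ c, E c a → ∃ n b v F, E n om ∧ fus_P f n b v F ∧ E c b := by
    intro c hc
    obtain ⟨i, hi, hg⟩ := g1 c hc
    obtain ⟨b, v, F, hp⟩ := hdec i hi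
    obtain ⟨b', v', F', hp'⟩ := hdec (suc i) (suc_mem_om hi)
    exact ⟨suc i, b', v', F', suc_mem_om hi, hp', (hstep i b v F b' v' F' hi hp hp').1 c hc hg⟩
  have hfun : ∀ x n n', E (opair x n) z → E (opair x n') z → n = n' := by
    intro x n n' h h'
    obtain ⟨m, b, v, F, hm, hp, h1, h2⟩ := hcom _ _ h h'
    exact (hQ1 b v F (hPQ m b v F hm hp)).2.1.2.2.1 x n n' h1 h2
  have hnd : Nd a z := by
    refine ⟨?_, ?_, hfun, ?_, ?_⟩
    · intro t ht
      have h2 : E t (sep (prod a om) (fun t : M => ∃ n b v F : M, E n om ∧ fus_P f n b v F ∧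
        E t v)) := ht
      rw [mem_sep' inferInstance] at h2
      obtain ⟨x, n, hx, hn, rfl⟩ := mem_prod'.1 h2.1
      exact ⟨x, n, hx, hn, rfl⟩
    · intro x hx
      obtain ⟨n, b, v, F, hn, hp, hxb⟩ := hcov x hx
      obtain ⟨k, hk⟩ := (hQ1 b v F (hPQ n b v F hn hp)).2.1.2.1 x hxb
      exact ⟨k, hsub n b v F hn hp _ hk⟩
    · intro x x' n h h'
      obtain ⟨m, b, v, F, hm, hp, h1, h2⟩ := hcom _ _ h h'
      exact (hQ1 b v F (hPQ m b v F hm hp)).2.1.2.2.2.1 x x' n h1 h2
    · intro G hG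
      by_contra hcon
      have hFG : ∀ n b v F, E n om → fus_P f n b v F → Sub F G := by
        intro n b v F hn hp k hk
        by_contra hkG
        refine hcon ⟨k, (hQ1 b v F (hPQ n b v F hn hp)).2.2.2.1 k hk, hkG, fun x hx => ?_⟩
        exact hAv n b v F hn hp k x hk hx
      have hcard : ∀ n, E n om → ∀ b v F, fus_P f n b v F → Sub n (card F) := by
        refine om_ind (C := fun n : M => ∀ b v F : M, fus_P f n b v F → Sub n (card F))
          inferInstance ?_ ?_
        · intro b v F _ t ht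
          exact absurd ht (not_mem_emp _)
        · intro n hn ih b' v' F' hp'
          obtain ⟨b, v, F, hp⟩ := hdec n hn
          have h1 := ih b v F hp
          obtain ⟨_, _, _, h2, h3⟩ := hstep n b v F b' v' F' hn hp hp'
          have hF' := (hQ1 b' v' F' (hPQ (suc n) b' v' F' (suc_mem_om hn) hp')).2.2.1
          have h4 : E (card F) (card F') := finF.card_lt hF' h2 h3
          have hoF' : Ord (card F') := Ord_nat (finF.card_om hF')
          have hoF : Ord (card F) := hoF'.mem h4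
          have h5 : E n (card F') := by
            rcases ((Ord_nat hn).sub_iff hoF).1 h1 with h | h
            · exact hoF'.trans h4 h
            · rw [h]; exact h4
          exact (Ord_nat hn).suc_sub hoF' h5
      have hcG : E (suc (card G)) om := suc_mem_om (finF.card_om hG)
      obtain ⟨b, v, F, hp⟩ := hdec (suc (card G)) hcG
      have h1 := hcard (suc (card G)) hcG b v F hp
      have h2 := finF.card_le hG (hFG (suc (card G)) b v F hcG hp)
      have h3 : E (card G) (card G) := h2 _ (h1 _ (by rw [mem_suc]; exact Or.inr rfl))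
      exact not_mem_self _ h3
  have he : E (suc (emp : M)) om := suc_mem_om emp_mem_om
  obtain ⟨b1, v1, F1, hp1⟩ := hdec (suc emp) he
  have hp0 : fus_P f emp b0 v0 F0 := f0
  obtain ⟨_, _, h1, h2, h3⟩ := hstep emp b0 v0 F0 b1 v1 F1 emp_mem_om hp0 hp1
  obtain ⟨_, _, h4, h5, _⟩ := hQ1 b1 v1 F1 (hPQ _ b1 v1 F1 he hp1)
  refine ⟨z, F1, hnd, hsub emp b0 v0 F0 emp_mem_om hp0, h2, h3, h4, h5,
    hAv _ b1 v1 F1 he hp1, ?_⟩
  intro c hc
  obtain ⟨n, b, v, F, hn, hp, hcb⟩ := hcov c hc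
  have hq := hPQ n b v F hn hp
  refine ⟨b, v, F, hcb, hq, ext fun t => ?_⟩
  rw [mem_res]
  constructor
  · intro ht
    obtain ⟨x, k, hx, hk, rfl⟩ := (hQ1 b v F hq).2.1.1 t ht
    exact ⟨hsub n b v F hn hp _ ht, x, k, hx, rfl⟩
  · rintro ⟨ht, x, y, hx, rfl⟩
    obtain ⟨k, hk⟩ := (hQ1 b v F hq).2.1.2.1 x hx
    rw [hfun x y k ht (hsub n b v F hn hp _ hk)]
    exact hk

end SW
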