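import Pool.Agent.H93.CT.Stmts

/-!
Module SPL of project CT: splitting nodes.
-/

set_option linter.unusedVariables false
set_option synthInstance.maxSize 100000

namespace SW

section
variable {M : Type} [SetStr M] [ZF M]

theorem spl_Lv_mono {p q b v : M} (h : Sub p q) (hv : Lv p b v) : Lv q b v := by
  obtain ⟨t, g, h1, h2⟩ := hv
  exact ⟨t, g, h _ h1, h2⟩

end

theorem ct_spl (hdc : DCXStmt) (huni : UNIStmt) (hcfx : CFXStmt) : SPLStmt := by
  intro M _ _ w Z I a p K c hbs hI hp hK hdns hc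
  have cf := hcfx M w Z I hbs
  have hpP : E p (PQ w Z I) := cf.mem.2 ⟨a, hp⟩
  by_cases hcol : ∃ x, Et p K c x
  swap
  · refine ⟨p, hpP, Sub.refl _, fun v F h => ?_⟩
    obtain ⟨x, hx, _⟩ := h
    exact absurd ⟨x, hx⟩ hcol
  obtain ⟨x, hx⟩ := hcol
  obtain ⟨⟨g, g1, g2⟩, hx2⟩ := (hp.2.2 K hK).1 c x hx
  let X : M := sep (prod om (PQ w Z I)) (fun y : M => ∃ n q : M, y = opair n q ∧ Sub p q)
  have hX : ∀ n q : M, E (opair n q) X ↔ E n om ∧ E q (PQ w Z I) ∧ Sub p q := by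
    intro n q
    show E _ (sep _ _) ↔ _
    rw [mem_sep' inferInstance]
    constructor
    · rintro ⟨h, n', q', h1, h2⟩
      rw [opair_inj] at h1
      obtain ⟨rfl, rfl⟩ := h1
      rw [mem_prod] at h
      exact ⟨h.1, h.2, h2⟩
    · rintro ⟨h1, h2, h3⟩
      exact ⟨mem_prod.2 ⟨h1, h2⟩, n, q, rfl, h3⟩
  have hXd : ∀ y, E y X → ∃ n q, y = opair n q ∧ E n om ∧ E q (PQ w Z I) ∧ Sub p q := by
    intro y hy
    have h2 : E y (sep (prod om (PQ w Z I)) (fun y : M => ∃ n q : M, y = opair n q ∧ Sub p q)) :=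
      hy
    rw [mem_sep' inferInstance] at h2
    obtain ⟨h, n, q, rfl, h3⟩ := h2
    rw [mem_prod] at h
    exact ⟨n, q, rfl, h.1, h.2, h3⟩
  obtain ⟨f, f0, fs⟩ := hdc M X (opair emp p)
    (fun y y' : M => ∃ n q q' : M, y = opair n q ∧ y' = opair (suc n) q' ∧ Sub q q' ∧
      ∀ v F : M, E (opair v F) x → E (opair (opair v F) n) g →
        ∃ d u r : M, Lv q' d u ∧ Sub v u ∧ Av F u ∧ Sub r q' ∧ E (opair u r) K)
    inferInstance ((hX _ _).2 ⟨emp_mem_om, hpP, Sub.refl _⟩) (by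
      intro y hy
      obtain ⟨n, q, rfl, hn, hq, hpq⟩ := hXd y hy
      by_cases hex : ∃ v F : M, E (opair v F) x ∧ E (opair (opair v F) n) g
      · obtain ⟨v, F, h1, h2⟩ := hex
        have hin : InB p K c v F := ⟨x, hx, h1⟩
        obtain ⟨h3, h4, h5, h6⟩ := (hp.2.2 K hK).2.2.1 c v F hin
        obtain ⟨q', c', u, r, k1, k2, k3, k4, k5, k6, k7⟩ := hdns q c v F hq
          (spl_Lv_mono hpq h3) h4 h5 h6
        refine ⟨opair (suc n) q', (hX _ _).2 ⟨suc_mem_om hn, k1, hpq.trans k2⟩,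
          n, q, q', rfl, rfl, k2, ?_⟩
        intro v' F' h1' h2'
        have h7 := g2 _ _ n h1' h1 hn h2' h2
        rw [opair_inj] at h7
        rw [h7.1, h7.2]
        exact ⟨c', u, r, k3, k4, k5, k6, k7⟩
      · refine ⟨opair (suc n) q, (hX _ _).2 ⟨suc_mem_om hn, hq, hpq⟩,
          n, q, q, rfl, rfl, Sub.refl _, fun v' F' h1 h2 => absurd ⟨v', F', h1, h2⟩ hex⟩)
  have hdec : ∀ n, E n om → ∃ q, app f n = opair n q := by
    refine om_ind (C := fun n : M => ∃ q : M, app f n = opair n q) inferInstance ⟨p, f0⟩ ?_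
    rintro n hn ⟨q, h⟩
    obtain ⟨_, n', q1, q', h1, h2, _⟩ := fs n hn
    rw [h, opair_inj] at h1
    exact ⟨q', by rw [h2, ← h1.1]⟩
  let s : M → M := fun n => the (fun q : M => app f n = opair n q)
  have hs : Fn1 s := by
    show Fn1 (fun n : M => the (fun q : M => app f n = opair n q))
    infer_instance
  have hseq : ∀ n q, app f n = opair n q → s n = q := by
    intro n q h
    refine the_eq h fun z hz => ?_
    rw [h, opair_inj] at hz
    exact hz.2.symm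
  have hstep : ∀ n, E n om → E (s n) (PQ w Z I) ∧ Sub (s n) (s (suc n)) ∧
      ∀ v F : M, E (opair v F) x → E (opair (opair v F) n) g →
        ∃ d u r : M, Lv (s (suc n)) d u ∧ Sub v u ∧ Av F u ∧ Sub r (s (suc n)) ∧
          E (opair u r) K := by
    intro n hn
    obtain ⟨q, hq⟩ := hdec n hn
    obtain ⟨h1, n', q1, q', h2, h3, h4, h5⟩ := fs n hn
    rw [hq] at h1 h2
    rw [opair_inj] at h2
    obtain ⟨rfl, rfl⟩ := h2
    rw [hseq n q hq, hseq _ _ h3]
    exact ⟨((hX _ _).1 h1).2.1, h4, h5⟩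
  have hgr : ∀ n, E n om → app (gr om s) n = s n := fun n hn => app_gr hs hn
  obtain ⟨b, hb, hb2⟩ := huni M w Z I (gr om s) hbs hI (fun n hn => by
    rw [hgr n hn, hgr _ (suc_mem_om hn)]
    exact ⟨(hstep n hn).1, (hstep n hn).2.1⟩)
  have hsub : ∀ n, E n om → Sub (s n) (uq (gr om s)) := fun n hn => by
    rw [← hgr n hn]
    exact (hb2 n hn).1
  refine ⟨uq (gr om s), cf.mem.2 ⟨b, hb⟩, ?_, ?_⟩
  · have h := hsub emp emp_mem_om
    rwa [hseq emp p f0] at h
  · rintro v F ⟨x', hx', hvx⟩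
    have hxx : x' = x := hp.1.2.2.2.1 K c x' x hx' hx
    rw [hxx] at hvx
    obtain ⟨n, hn, hng⟩ := g1 _ hvx
    obtain ⟨d, u, r, h1, h2, h3, h4, h5⟩ := (hstep n hn).2.2 v F hvx hng
    exact ⟨d, u, r, spl_Lv_mono (hsub _ (suc_mem_om hn)) h1, h2, h3,
      h4.trans (hsub _ (suc_mem_om hn)), h5⟩

end SW
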